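import Mathlib

/-!
# The cost of a partition
-/

namespace Pool.Agent.V11225.PS

open Finset

/-- the adjacency which two vertices with the roles `p`, `q` must get if it is `a` now (role `0`:
independent part, role `1`: clique part, roles `2, …, 6`: the five-cycle) -/
def tg (p q : ℕ) (a : Bool) : Bool :=
  if p = 0 then (if q = 1 then a else false)
  else if q = 0 then (if p = 1 then a else false)
  else if p = 1 then true
  else if q = 1 then true
  else decide (p + 1 = q ∨ q + 1 = p ∨ p + 4 = q ∨ q + 4 = p)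

/-- the cost of a pair of vertices -/
def pen (p q : ℕ) (a : Bool) : ℕ := if tg p q a = a then 0 else 1

/-- the roles: `r v ≠ 0` is the role of a vertex of the five-cycle -/
def role (r : ℕ → ℕ) (K : ℕ → Bool) (v : ℕ) : ℕ :=
  if r v = 0 then (if K v = true then 1 else 0) else r v

/-- twice the cost -/
def cost2 (n : ℕ) (a : ℕ → ℕ → Bool) (ρ : ℕ → ℕ) : ℕ :=
  ∑ i ∈ range n, ∑ j ∈ range n, if i = j then 0 else pen (ρ i) (ρ j) (a i j)

/-- indicator function -/
def ind (b : Prop) [Decidable b] : ℤ := if b then 1 else 0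

theorem tg_comm (p q : ℕ) (a : Bool) : tg p q a = tg q p a := by
  unfold tg
  by_cases h1 : p = 0 <;> by_cases h2 : q = 0 <;> by_cases h3 : p = 1 <;> by_cases h4 : q = 1 <;>
    simp_all
  · rw [Bool.eq_iff_iff]
    simp only [Bool.or_eq_true, decide_eq_true_eq]
    omega

theorem pen_comm (p q : ℕ) (a : Bool) : pen p q a = pen q p a := by
  unfold pen
  rw [tg_comm]

theorem pen_form (r : ℕ → ℕ) (hr : ∀ v, r v ≠ 1) (K : ℕ → Bool) (a : Bool) (i j : ℕ) :
    (pen (role r K i) (role r K j) a : ℤ) = pen (r i) (r j) a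
      - ind (a = true) * ind (r i = 0 ∧ K i = true) * (1 + ind (r j ≠ 0))
      - ind (a = true) * ind (r j = 0 ∧ K j = true) * (1 + ind (r i ≠ 0))
      + ind (r i = 0 ∧ K i = true) * ind (r j = 0 ∧ K j = true)
      + ind (r i = 0 ∧ K i = true) * ind (r j ≠ 0)
      + ind (r j = 0 ∧ K j = true) * ind (r i ≠ 0) := by
  unfold role
  have hi := hr i
  have hj := hr j
  generalize r i = p at *
  generalize r j = q at *
  by_cases h1 : p = 0 <;> by_cases h2 : q = 0 <;> cases K i <;> cases K j <;> cases a <;>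
    simp [pen, tg, ind, h1, h2, hi, hj]

variable (n : ℕ) (a : ℕ → ℕ → Bool) (r : ℕ → ℕ)

/-- the weight of a vertex -/
def wt (v : ℕ) : ℕ :=
  ∑ j ∈ range n, if a v j = true then (if r j = 0 then 1 else 2) else 0

/-- the number of the vertices of the five-cycle -/
def nc : ℤ := ∑ j ∈ range n, ind (r j ≠ 0)

theorem wt_eq (v : ℕ) : (wt n a r v : ℤ) =
    ∑ j ∈ range n, ind (a v j = true) * (1 + ind (r j ≠ 0)) := by
  unfold wt
  push_cast
  refine sum_congr rfl fun j _ => ?_
  unfold ind
  by_cases h1 : a v j = true <;> by_cases h2 : r j = 0 <;> simp [h1, h2]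

variable {n a r}

theorem cost_form (hr : ∀ v, r v ≠ 1) (hs : ∀ i j, a i j = a j i) (h0 : ∀ i, a i i = false)
    (K : Finset ℕ) (hK : ∀ v ∈ K, v < n ∧ r v = 0) :
    (cost2 n a (role r (fun v => decide (v ∈ K))) : ℤ) = cost2 n a r
      - 2 * ∑ v ∈ K, (wt n a r v : ℤ) + (K.card : ℤ) * K.card - K.card
      + 2 * K.card * nc n r := by
  have hx : ∀ i, ind (r i = 0 ∧ decide (i ∈ K) = true) = ind (i ∈ K) := by
    intro i
    unfold ind
    by_cases h : i ∈ K
    · simp [h, (hK i h).2]
    · simp [h]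
  have hsumK : ∀ f : ℕ → ℤ, ∑ i ∈ range n, ind (i ∈ K) * f i = ∑ i ∈ K, f i := by
    intro f
    unfold ind
    rw [← Finset.sum_filter_add_sum_filter_not (range n) (fun i => i ∈ K)]
    have e1 : (range n).filter (fun i => i ∈ K) = K := by
      ext i
      simp only [mem_filter, mem_range]
      exact ⟨fun h => h.2, fun h => ⟨(hK i h).1, h⟩⟩
    rw [e1, add_comm, Finset.sum_eq_zero (s := (range n).filter (fun i => ¬ i ∈ K))
      (f := fun i => (if i ∈ K then 1 else 0) * f i), zero_add]
    · refine sum_congr rfl fun i hi => ?_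
      rw [if_pos hi, one_mul]
    · intro i hi
      rw [if_neg (mem_filter.1 hi).2, zero_mul]
  have hcard : ∑ i ∈ range n, ind (i ∈ K) = K.card := by
    have := hsumK (fun _ => 1)
    simp only [mul_one] at this
    rw [this]
    simp
  -- the sum over all pairs
  have hpair : ∀ i ∈ range n, ∀ j ∈ range n,
      ((if i = j then 0 else pen (role r (fun v => decide (v ∈ K)) i)
        (role r (fun v => decide (v ∈ K)) j) (a i j) : ℕ) : ℤ) =
      ((if i = j then 0 else pen (r i) (r j) (a i j) : ℕ) : ℤ)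
        - ind (i ∈ K) * (ind (a i j = true) * (1 + ind (r j ≠ 0)))
        - ind (j ∈ K) * (ind (a j i = true) * (1 + ind (r i ≠ 0)))
        + ind (i ∈ K) * ind (j ∈ K) + ind (i ∈ K) * ind (r j ≠ 0)
        + ind (j ∈ K) * ind (r i ≠ 0) - (if i = j then ind (i ∈ K) else 0) := by
    intro i _ j _
    by_cases hij : i = j
    · subst hij
      rw [if_pos rfl, if_pos rfl, if_pos rfl, h0 i]
      by_cases h : i ∈ K
      · have := (hK i h).2
        simp [ind, h, this]
      · simp [ind, h]
    · rw [if_neg hij, if_neg hij, if_neg hij, pen_form r hr, hx, hx, hs j i]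
      ring
  unfold cost2
  push_cast
  rw [sum_congr rfl fun i hi => sum_congr rfl fun j hj => (by
    have := hpair i hi j hj
    push_cast at this
    exact this)]
  simp only [sum_add_distrib, sum_sub_distrib]
  have e1 : ∑ i ∈ range n, ∑ j ∈ range n,
      ind (i ∈ K) * (ind (a i j = true) * (1 + ind (r j ≠ 0))) = ∑ v ∈ K, (wt n a r v : ℤ) := by
    rw [← hsumK]
    refine sum_congr rfl fun i _ => ?_
    rw [wt_eq, mul_sum]
  have e2 : ∑ i ∈ range n, ∑ j ∈ range n,
      ind (j ∈ K) * (ind (a j i = true) * (1 + ind (r i ≠ 0))) = ∑ v ∈ K, (wt n a r v : ℤ) := by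
    rw [sum_comm]
    exact e1
  have e3 : ∑ i ∈ range n, ∑ j ∈ range n, ind (i ∈ K) * ind (j ∈ K) =
      (K.card : ℤ) * K.card := by
    simp only [← mul_sum, ← sum_mul, hcard]
  have e4 : ∑ i ∈ range n, ∑ j ∈ range n, ind (i ∈ K) * ind (r j ≠ 0) = K.card * nc n r := by
    simp only [← mul_sum, ← sum_mul, hcard]
    rfl
  have e5 : ∑ i ∈ range n, ∑ j ∈ range n, ind (j ∈ K) * ind (r i ≠ 0) = K.card * nc n r := by
    rw [sum_comm]
    exact e4
  have e6 : ∑ i ∈ range n, ∑ j ∈ range n, (if i = j then ind (i ∈ K) else 0) = K.card := by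
    rw [← hcard]
    refine sum_congr rfl fun i hi => ?_
    rw [sum_ite_eq, if_pos hi]
  rw [e1, e2, e3, e4, e5, e6]
  ring

/-- the keys of the vertices -/
def key (n : ℕ) (a : ℕ → ℕ → Bool) (r : ℕ → ℕ) (v : ℕ) : ℕ :=
  wt n a r v * (2 * n * n + 1) + (n - v)

/-- the threshold partitions -/
def thr (n : ℕ) (a : ℕ → ℕ → Bool) (r : ℕ → ℕ) (u v : ℕ) : Bool :=
  decide (u < n) && decide (key n a r u ≤ key n a r v)

theorem key_inj {u v : ℕ} (hu : u < n) (hv : v < n) (h : key n a r u = key n a r v) : u = v := by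
  unfold key at h
  have hnn : n ≤ n * n := Nat.le_mul_self n
  have hnn' : 2 * n * n = 2 * (n * n) := Nat.mul_assoc _ _ _
  have h1 : n - u < 2 * n * n + 1 := by omega
  have h2 : n - v < 2 * n * n + 1 := by omega
  have h3 : (n - u) = (n - v) := by
    have e1 : (wt n a r u * (2 * n * n + 1) + (n - u)) % (2 * n * n + 1) = n - u := by
      rw [Nat.add_comm, Nat.add_mul_mod_self_right, Nat.mod_eq_of_lt h1]
    have e2 : (wt n a r v * (2 * n * n + 1) + (n - v)) % (2 * n * n + 1) = n - v := by
      rw [Nat.add_comm, Nat.add_mul_mod_self_right, Nat.mod_eq_of_lt h2]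
    rw [← e1, ← e2, h]
  omega

/-- the threshold partitions contain an optimal one -/
theorem exists_thr (hr : ∀ v, r v ≠ 1) (hs : ∀ i j, a i j = a j i) (h0 : ∀ i, a i i = false)
    (K₀ : Finset ℕ) (hK₀ : ∀ v ∈ K₀, v < n ∧ r v = 0) :
    ∃ u ≤ n, cost2 n a (role r (thr n a r u)) ≤
      cost2 n a (role r (fun v => decide (v ∈ K₀))) := by
  classical
  let R := (range n).filter fun v => r v = 0
  have hR : ∀ v, v ∈ R ↔ v < n ∧ r v = 0 := fun v => by simp [R]
  let f : Finset ℕ → ℤ := fun K =>
    (2 * n * n + 1) * (cost2 n a (role r (fun v => decide (v ∈ K))) : ℤ) -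
      2 * ∑ v ∈ K, ((n - v : ℕ) : ℤ)
  obtain ⟨K, hKm, hKmin⟩ := Finset.exists_min_image R.powerset f ⟨∅, by simp⟩
  have hKR : ∀ v ∈ K, v < n ∧ r v = 0 := fun v hv => (hR v).1 (mem_powerset.1 hKm hv)
  have hsmall : ∀ K' : Finset ℕ, (∀ v ∈ K', v < n ∧ r v = 0) →
      0 ≤ ∑ v ∈ K', ((n - v : ℕ) : ℤ) ∧ ∑ v ∈ K', ((n - v : ℕ) : ℤ) ≤ n * n := by
    intro K' h
    refine ⟨sum_nonneg fun v _ => Int.natCast_nonneg _, ?_⟩
    calc ∑ v ∈ K', ((n - v : ℕ) : ℤ) ≤ ∑ v ∈ range n, ((n - v : ℕ) : ℤ) :=
          sum_le_sum_of_subset_of_nonneg (fun v hv => mem_range.2 (h v hv).1)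
            (fun v _ _ => Int.natCast_nonneg _)
      _ ≤ ∑ v ∈ range n, (n : ℤ) := sum_le_sum fun v _ => by
          have : n - v ≤ n := Nat.sub_le _ _
          exact_mod_cast this
      _ = n * n := by simp
  have hcost : cost2 n a (role r (fun v => decide (v ∈ K))) ≤
      cost2 n a (role r (fun v => decide (v ∈ K₀))) := by
    have h1 : f K ≤ f K₀ := hKmin K₀ (mem_powerset.2 fun v hv => (hR v).2 (hK₀ v hv))
    simp only [f] at h1
    have h2 := hsmall K hKR
    have h3 := hsmall K₀ hK₀
    by_contra hlt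
    push Not at hlt
    have h4 : (cost2 n a (role r (fun v => decide (v ∈ K₀))) : ℤ) + 1 ≤
        cost2 n a (role r (fun v => decide (v ∈ K))) := by exact_mod_cast hlt
    nlinarith
  -- threshold property
  have hthr : ∀ v ∈ K, ∀ v' ∈ R, v' ∉ K → key n a r v' < key n a r v := by
    intro v hv v' hv' hvK'
    have hvn := (hKR v hv).1
    have hvn' := ((hR v').1 hv').1
    by_contra hge
    push Not at hge
    have hne : v ≠ v' := fun h => hvK' (h ▸ hv)
    have hlt : key n a r v < key n a r v' :=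
      lt_of_le_of_ne hge fun h => hne (key_inj hvn hvn' h)
    have hnot : v' ∉ K.erase v := fun h => hvK' (mem_of_mem_erase h)
    have hK'R : ∀ w ∈ insert v' (K.erase v), w < n ∧ r w = 0 := by
      intro w hw
      rcases mem_insert.1 hw with rfl | hw
      · exact (hR w).1 hv'
      · exact hKR w (mem_of_mem_erase hw)
    have h1 : f K ≤ f (insert v' (K.erase v)) :=
      hKmin _ (mem_powerset.2 fun w hw => (hR w).2 (hK'R w hw))
    have hc : (insert v' (K.erase v)).card = K.card := by
      rw [card_insert_of_notMem hnot, card_erase_of_mem hv]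
      have : 0 < K.card := card_pos.2 ⟨v, hv⟩
      omega
    simp only [f] at h1
    rw [cost_form hr hs h0 K hKR, cost_form hr hs h0 _ hK'R, hc, sum_insert hnot,
      sum_insert hnot] at h1
    have e1 := Finset.add_sum_erase K (fun v => (wt n a r v : ℤ)) hv
    have e2 := Finset.add_sum_erase K (fun v => ((n - v : ℕ) : ℤ)) hv
    rw [← e1, ← e2] at h1
    unfold key at hlt
    have h5 : (wt n a r v : ℤ) * (2 * n * n + 1) + ((n - v : ℕ) : ℤ) <
        (wt n a r v' : ℤ) * (2 * n * n + 1) + ((n - v' : ℕ) : ℤ) := by exact_mod_cast hlt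
    nlinarith
  rcases K.eq_empty_or_nonempty with hemp | hne
  · refine ⟨n, le_rfl, le_of_eq_of_le ?_ hcost⟩
    congr 1
    funext v
    unfold role thr
    rw [hemp]
    simp
  · obtain ⟨u, hu, humin⟩ := Finset.exists_min_image K (key n a r) hne
    refine ⟨u, (hKR u hu).1.le, le_of_eq_of_le ?_ hcost⟩
    unfold cost2
    refine sum_congr rfl fun i hi => sum_congr rfl fun j hj => ?_
    have hrole : ∀ v ∈ range n, role r (thr n a r u) v = role r (fun v => decide (v ∈ K)) v := by
      intro v hv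
      unfold role
      by_cases hrv : r v = 0
      · rw [if_pos hrv, if_pos hrv]
        have : thr n a r u v = decide (v ∈ K) := by
          unfold thr
          rw [decide_eq_true (hKR u hu).1, Bool.true_and]
          by_cases hvK : v ∈ K
          · rw [decide_eq_true hvK, decide_eq_true (humin v hvK)]
          · rw [decide_eq_false hvK, decide_eq_false]
            push Not
            exact hthr u hu v ((hR v).2 ⟨mem_range.1 hv, hrv⟩) hvK
        rw [this]
      · rw [if_neg hrv, if_neg hrv]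
    rw [hrole i hi, hrole j hj]

end Pool.Agent.V11225.PS
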