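import Pool.Agent.H257R2.LJW.Clique
import Pool.Agent.H671R2.PolyAuto

/-!
# Edge editing problems: definitions
-/

namespace Pool.Agent.V11225.PS

open Pool.Agent.NPC Pool.Agent.H633R2 SimpleGraph

/-- `G` has no induced subgraph isomorphic to a member of the family `F` (of graphs on
`{0, …, m - 1}` for various `m`). -/
def Free (F : Set (Σ m : ℕ, SimpleGraph (Fin m))) {V : Type} (G : SimpleGraph V) : Prop :=
  ∀ H ∈ F, ¬ H.2.IsIndContained G

/-- `F`-free Edge Editing: an instance is a graph (given by a 0/1 matrix) and a number `k`; the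
question is whether the graph can be made `F`-free by adding or removing at most `k` edges in
total. -/
def Editing (F : Set (Σ m : ℕ, SimpleGraph (Fin m))) (x : List (List Bool) × ℕ) : Prop :=
  ∃ G' : SimpleGraph (Fin x.1.length), Free F G' ∧
    (symmDiff (graphOf x.1).edgeSet G'.edgeSet).ncard ≤ x.2

/-- Polynomial kernels (for problems whose instances are pairs of a graph, given by a 0/1 matrix, and
the parameter): a polynomial-time algorithm which maps every instance to an equivalent instance
whose size is bounded by a polynomial in the parameter. -/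
def HasPolyKernel (P : List (List Bool) × ℕ → Prop) : Prop :=
  ∃ f : List (List Bool) × ℕ → List (List Bool) × ℕ, Poly f ∧ (∀ x, P (f x) ↔ P x) ∧
    ∃ p : Polynomial ℕ, ∀ x, (bits (f x)).length ≤ p.eval x.2

/-- The cycle `C₄`. -/
def C4 : Σ m : ℕ, SimpleGraph (Fin m) := ⟨4, cycleGraph 4⟩

/-- The graph `2K₂` with two disjoint edges, the complement of `C₄`. -/
def twoK2 : Σ m : ℕ, SimpleGraph (Fin m) := ⟨4, (cycleGraph 4)ᶜ⟩

end Pool.Agent.V11225.PS
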