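import Pool.Agent.V11225.PS.Pat

/-!
# Editing to graphs without induced `C₄` and `2K₂` in polynomial time
-/

namespace Pool.Agent.V11225.PS

open Pool.Agent.NPC Pool.Agent.H633R2 Finset

/-- adjacency -/
def aM (M : List (List Bool)) (i j : ℕ) : Bool := decide (i ≠ j) && (entry M i j || entry M j i)

theorem aM_comm (M : List (List Bool)) (i j : ℕ) : aM M i j = aM M j i := by
  unfold aM
  rw [Bool.or_comm]
  congr 1
  rw [decide_eq_decide]
  exact ne_comm

theorem aM_self (M : List (List Bool)) (i : ℕ) : aM M i i = false := by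
  simp [aM]

theorem aM_iff (M : List (List Bool)) (i j : Fin M.length) :
    aM M i j = true ↔ (graphOf M).Adj i j := by
  unfold aM graphOf
  simp only [Bool.and_eq_true, decide_eq_true_eq, Bool.or_eq_true, ne_eq, Fin.val_inj]

/-- the roles of a five-cycle -/
def core (c0 c1 c2 c3 c4 w : ℕ) : ℕ :=
  if w = c0 then 2 else if w = c1 then 3 else if w = c2 then 4 else
    if w = c3 then 5 else if w = c4 then 6 else 0

theorem core_ne_one (c0 c1 c2 c3 c4 w : ℕ) : core c0 c1 c2 c3 c4 w ≠ 1 := by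
  unfold core
  split_ifs <;> omega

theorem core_inj {c0 c1 c2 c3 c4 v w : ℕ} (h0 : core c0 c1 c2 c3 c4 v ≠ 0)
    (h : core c0 c1 c2 c3 c4 v = core c0 c1 c2 c3 c4 w) : v = w := by
  unfold core at *
  split_ifs at * <;> omega

theorem role_ok (c0 c1 c2 c3 c4 n : ℕ) (K : ℕ → Bool) :
    Ok (fun v : Fin n => role (core c0 c1 c2 c3 c4) K v) := by
  constructor
  · intro v
    simp only
    unfold role core
    split_ifs <;> omega
  · intro u v hu huv
    simp only at hu huv
    have h1 : core c0 c1 c2 c3 c4 u ≠ 0 := by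
      intro h
      unfold role at hu
      rw [if_pos h] at hu
      split_ifs at hu <;> omega
    have h2 : core c0 c1 c2 c3 c4 u = core c0 c1 c2 c3 c4 v := by
      unfold role at huv hu
      rw [if_neg h1] at huv hu
      split_ifs at huv <;> omega
    exact Fin.ext (core_inj h1 h2)

theorem tg_idem (p q : ℕ) (a : Bool) : tg p q (tg p q a) = tg p q a := by
  unfold tg
  split_ifs <;> rfl

/-- counting the differences of two graphs -/
theorem two_mul_ncard {n : ℕ} (G H : SimpleGraph (Fin n)) (f : ℕ → ℕ → ℕ)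
    (hf : ∀ i j : Fin n, ((i ≠ j ∧ ¬ (G.Adj i j ↔ H.Adj i j)) → f i j = 1) ∧
      (¬ (i ≠ j ∧ ¬ (G.Adj i j ↔ H.Adj i j)) → f i j = 0)) :
    2 * (symmDiff G.edgeSet H.edgeSet).ncard = ∑ i ∈ range n, ∑ j ∈ range n, f i j := by
  classical
  have h1 : symmDiff G.edgeSet H.edgeSet = (symmDiff G H).edgeSet := by
    unfold symmDiff
    rw [SimpleGraph.edgeSet_sup, SimpleGraph.edgeSet_sdiff, SimpleGraph.edgeSet_sdiff]
    rfl
  have h2 : (symmDiff G.edgeSet H.edgeSet).ncard = (symmDiff G H).edgeFinset.card := by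
    rw [h1, ← SimpleGraph.coe_edgeFinset, Set.ncard_coe_finset]
  rw [h2, ← SimpleGraph.sum_degrees_eq_twice_card_edges, Finset.sum_range]
  refine sum_congr rfl fun i _ => ?_
  rw [Finset.sum_range, ← SimpleGraph.card_neighborFinset_eq_degree,
    SimpleGraph.neighborFinset_eq_filter, Finset.card_filter]
  refine sum_congr rfl fun j _ => ?_
  have h3 : (symmDiff G H).Adj i j ↔ (i ≠ j ∧ ¬ (G.Adj i j ↔ H.Adj i j)) := by
    unfold symmDiff
    rw [SimpleGraph.sup_adj, SimpleGraph.sdiff_adj, SimpleGraph.sdiff_adj]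
    constructor
    · rintro (⟨h, h'⟩ | ⟨h, h'⟩)
      · exact ⟨h.ne, fun e => h' (e.1 h)⟩
      · exact ⟨h.ne, fun e => h' (e.2 h)⟩
    · rintro ⟨_, h⟩
      tauto
  by_cases h : (symmDiff G H).Adj i j
  · rw [if_pos h, (hf i j).1 (h3.1 h)]
  · rw [if_neg h, (hf i j).2 (fun h' => h (h3.2 h'))]

/-- the test -/
def chk (x : List (List Bool) × ℕ) (c0 c1 c2 c3 c4 u : ℕ) : Bool :=
  decide (cost2 x.1.length (aM x.1) (role (core c0 c1 c2 c3 c4)
    (thr x.1.length (aM x.1) (core c0 c1 c2 c3 c4) u)) ≤ 2 * x.2)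

/-- the algorithm -/
def alg (x : List (List Bool) × ℕ) : Bool :=
  (List.range (x.1.length + 1)).any fun c0 => (List.range (x.1.length + 1)).any fun c1 =>
    (List.range (x.1.length + 1)).any fun c2 => (List.range (x.1.length + 1)).any fun c3 =>
      (List.range (x.1.length + 1)).any fun c4 => (List.range (x.1.length + 1)).any fun u =>
        chk x c0 c1 c2 c3 c4 u

theorem alg_iff (x : List (List Bool) × ℕ) : alg x = true ↔
    ∃ c0 c1 c2 c3 c4 u, c0 ≤ x.1.length ∧ c1 ≤ x.1.length ∧ c2 ≤ x.1.length ∧ c3 ≤ x.1.length ∧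
      c4 ≤ x.1.length ∧ u ≤ x.1.length ∧ chk x c0 c1 c2 c3 c4 u = true := by
  unfold alg
  simp only [List.any_eq_true, List.mem_range, Nat.lt_succ_iff]
  constructor
  · rintro ⟨c0, h0, c1, h1, c2, h2, c3, h3, c4, h4, u, hu, h⟩
    exact ⟨c0, c1, c2, c3, c4, u, h0, h1, h2, h3, h4, hu, h⟩
  · rintro ⟨c0, c1, c2, c3, c4, u, h0, h1, h2, h3, h4, hu, h⟩
    exact ⟨c0, h0, c1, h1, c2, h2, c3, h3, c4, h4, u, hu, h⟩

/-- correctness -/
theorem alg_correct (x : List (List Bool) × ℕ) : alg x = true ↔ Editing {C4, twoK2} x := by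
  classical
  obtain ⟨M, k⟩ := x
  rw [alg_iff]
  constructor
  · rintro ⟨c0, c1, c2, c3, c4, u, _, _, _, _, _, _, h⟩
    unfold chk at h
    rw [decide_eq_true_eq] at h
    simp only at h
    generalize hρ : role (core c0 c1 c2 c3 c4) (thr M.length (aM M) (core c0 c1 c2 c3 c4) u) = ρ
      at h
    let G' : SimpleGraph (Fin M.length) :=
      { Adj := fun i j => i ≠ j ∧ tg (ρ i) (ρ j) (aM M i j) = true
        symm := ⟨fun i j h => ⟨h.1.symm, by rw [tg_comm, aM_comm]; exact h.2⟩⟩
        loopless := ⟨fun i h => h.1 rfl⟩ }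
    have hok : Ok (fun v : Fin M.length => ρ v) := by
      rw [← hρ]
      exact role_ok _ _ _ _ _ _ _
    have hadj : ∀ i j : Fin M.length, i ≠ j →
        decide (G'.Adj i j) = tg (ρ i) (ρ j) (aM M i j) := by
      intro i j hij
      rw [Bool.eq_iff_iff, decide_eq_true_eq]
      exact ⟨fun h => h.2, fun h => ⟨hij, h⟩⟩
    have hroles : ∀ i j : Fin M.length, i ≠ j →
        tg (ρ i) (ρ j) (decide (G'.Adj i j)) = decide (G'.Adj i j) := by
      intro i j hij
      rw [hadj i j hij, tg_idem]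
    refine ⟨G', (free_iff _).2 ⟨noC4_of_roles (fun v : Fin M.length => ρ v) hok hroles,
      no2K2_of_roles (fun v : Fin M.length => ρ v) hok hroles⟩, ?_⟩
    have hcount := two_mul_ncard (graphOf M) G'
      (fun i j => if i = j then 0 else pen (ρ i) (ρ j) (aM M i j)) (by
        intro i j
        by_cases hij : i = j
        · rw [if_pos (by rw [hij])]
          exact ⟨fun h => absurd hij h.1, fun _ => rfl⟩
        · rw [if_neg (fun h => hij (Fin.ext h))]
          unfold pen
          have h1 := aM_iff M i j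
          have h2 : G'.Adj i j ↔ tg (ρ i) (ρ j) (aM M i j) = true :=
            ⟨fun h => h.2, fun h => ⟨hij, h⟩⟩
          rw [← h1, h2]
          by_cases h3 : tg (ρ i) (ρ j) (aM M i j) = aM M i j
          · rw [if_pos h3]
            refine ⟨fun h4 => absurd ?_ h4.2, fun _ => rfl⟩
            rw [h3]
          · rw [if_neg h3]
            refine ⟨fun _ => rfl, fun h4 => absurd ⟨hij, fun h5 => h3 ?_⟩ h4⟩
            rw [Bool.eq_iff_iff]
            exact h5.symm)
    unfold cost2 at h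
    simp only
    omega
  · rintro ⟨G', hfree, hk⟩
    rw [free_iff] at hfree
    obtain ⟨c, K, hc, hK, hroles⟩ := exists_roles G' hfree.1 hfree.2
    change ∀ u v : Fin M.length, u ≠ v → tg (role (core (c 0) (c 1) (c 2) (c 3) (c 4))
      (fun v => decide (v ∈ K)) u) (role (core (c 0) (c 1) (c 2) (c 3) (c 4))
      (fun v => decide (v ∈ K)) v) (decide (G'.Adj u v)) = decide (G'.Adj u v) at hroles
    have hK' : ∀ v ∈ K, v < M.length ∧ core (c 0) (c 1) (c 2) (c 3) (c 4) v = 0 := by
      intro v hv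
      have h := hK v hv
      refine ⟨h.1, ?_⟩
      unfold core
      simp [h.2]
    obtain ⟨u, hu, hle⟩ := exists_thr (n := M.length) (a := aM M) (core_ne_one _ _ _ _ _)
      (aM_comm M) (aM_self M) K hK'
    refine ⟨c 0, c 1, c 2, c 3, c 4, u, hc 0, hc 1, hc 2, hc 3, hc 4, hu, ?_⟩
    unfold chk
    rw [decide_eq_true_eq]
    refine hle.trans ?_
    have hcount := two_mul_ncard (graphOf M) G'
      (fun i j => if h : i < M.length ∧ j < M.length then
        (if (i ≠ j ∧ ¬ ((graphOf M).Adj ⟨i, h.1⟩ ⟨j, h.2⟩ ↔ G'.Adj ⟨i, h.1⟩ ⟨j, h.2⟩)) then 1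
          else 0) else 0) (by
        intro i j
        rw [dif_pos ⟨i.2, j.2⟩]
        constructor
        · rintro ⟨h1, h2⟩
          exact if_pos ⟨fun h => h1 (Fin.ext h), h2⟩
        · intro h1
          exact if_neg fun h2 => h1 ⟨fun h => h2.1 (congrArg Fin.val h), h2.2⟩)
    have hle2 : cost2 M.length (aM M) (role (core (c 0) (c 1) (c 2) (c 3) (c 4))
        (fun v => decide (v ∈ K))) ≤
        2 * (symmDiff (graphOf M).edgeSet G'.edgeSet).ncard := by
      rw [hcount]
      unfold cost2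
      refine sum_le_sum fun i hi => sum_le_sum fun j hj => ?_
      have hi' := mem_range.1 hi
      have hj' := mem_range.1 hj
      by_cases hij : i = j
      · rw [if_pos hij]
        exact Nat.zero_le _
      · rw [if_neg hij, dif_pos ⟨hi', hj'⟩]
        have h1 := aM_iff M ⟨i, hi'⟩ ⟨j, hj'⟩
        have h2 := hroles ⟨i, hi'⟩ ⟨j, hj'⟩ (fun h => hij (Fin.mk.inj h))
        simp only at h1 h2
        unfold pen
        split_ifs with h3 h4 h4
        · exact Nat.zero_le _
        · exact Nat.zero_le _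
        · exact le_rfl
        · exfalso
          apply h3
          have h5 : (graphOf M).Adj ⟨i, hi'⟩ ⟨j, hj'⟩ ↔ G'.Adj ⟨i, hi'⟩ ⟨j, hj'⟩ := by
            by_contra hcon
            exact h4 ⟨hij, hcon⟩
          have h6 : decide (G'.Adj ⟨i, hi'⟩ ⟨j, hj'⟩) = aM M i j := by
            rw [Bool.eq_iff_iff, decide_eq_true_eq, ← h5, h1]
          rw [h6] at h2
          exact h2
    simp only at hk ⊢
    omega

end Pool.Agent.V11225.PS
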