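import Mathlib

/-!
# Graphs without induced `C₄` and `2K₂`
-/

namespace Pool.Agent.V11225.PS

open Finset

variable {V : Type*} (G : SimpleGraph V)

/-- no induced cycle of length four -/
def NoC4 : Prop := ∀ a b c d, G.Adj a b → G.Adj b c → G.Adj c d → G.Adj d a → a ≠ c → b ≠ d →
  ¬ G.Adj a c → ¬ G.Adj b d → False

/-- no two independent edges -/
def No2K2 : Prop := ∀ a b c d, G.Adj a b → G.Adj c d → a ≠ c → a ≠ d → b ≠ c → b ≠ d →
  ¬ G.Adj a c → ¬ G.Adj a d → ¬ G.Adj b c → ¬ G.Adj b d → False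

/-- an induced cycle of length five -/
structure IsC5 (a b c d e : V) : Prop where
  ab : G.Adj a b
  bc : G.Adj b c
  cd : G.Adj c d
  de : G.Adj d e
  ea : G.Adj e a
  ac : ¬ G.Adj a c
  bd : ¬ G.Adj b d
  ce : ¬ G.Adj c e
  da : ¬ G.Adj d a
  eb : ¬ G.Adj e b

variable {G}

theorem IsC5.rot {a b c d e : V} (h : IsC5 G a b c d e) : IsC5 G b c d e a :=
  ⟨h.bc, h.cd, h.de, h.ea, h.ab, h.bd, h.ce, h.da, h.eb, h.ac⟩

theorem IsC5.ne_ac {a b c d e : V} (h : IsC5 G a b c d e) : a ≠ c := by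
  intro he
  subst he
  exact h.da h.cd.symm

theorem IsC5.ne_ab {a b c d e : V} (h : IsC5 G a b c d e) : a ≠ b := h.ab.ne

/-- a vertex outside of a five-cycle which sees `a` sees `b` -/
theorem IsC5.step {a b c d e v : V} (h4 : NoC4 G) (h2 : No2K2 G) (h : IsC5 G a b c d e)
    (hvb : v ≠ b) (hvc : v ≠ c) (hvd : v ≠ d) (hve : v ≠ e) (hva : G.Adj v a) :
    G.Adj v b := by
  by_contra hb
  have hca := h.ne_ac
  have hbd := h.rot.ne_ac
  have hce := h.rot.rot.ne_ac
  have hda := h.rot.rot.rot.ne_ac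
  have heb := h.rot.rot.rot.rot.ne_ac
  by_cases hc : G.Adj v c
  · exact h4 v a b c hva h.ab h.bc hc.symm hvb hca hb h.ac
  · by_cases hd : G.Adj v d
    · by_cases he : G.Adj v e
      · exact h2 v e b c he h.bc hvb hvc heb hce.symm hb hc h.eb (fun h' => h.ce h'.symm)
      · exact h4 v a e d hva h.ea.symm h.de.symm hd.symm hve hda.symm he
          (fun h' => h.da h'.symm)
    · exact h2 v a c d hva h.cd hvc hvd hca hda.symm hc hd h.ac (fun h' => h.da h'.symm)

/-- the structure of a graph without induced `C₄` and `2K₂` with a five-cycle -/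
theorem IsC5.all {a b c d e v : V} (h4 : NoC4 G) (h2 : No2K2 G) (h : IsC5 G a b c d e)
    (hva : v ≠ a) (hvb : v ≠ b) (hvc : v ≠ c) (hvd : v ≠ d) (hve : v ≠ e) :
    (G.Adj v a ∧ G.Adj v b ∧ G.Adj v c ∧ G.Adj v d ∧ G.Adj v e) ∨
    (¬ G.Adj v a ∧ ¬ G.Adj v b ∧ ¬ G.Adj v c ∧ ¬ G.Adj v d ∧ ¬ G.Adj v e) := by
  have s1 := h.step h4 h2 hvb hvc hvd hve
  have s2 := h.rot.step h4 h2 hvc hvd hve hva
  have s3 := h.rot.rot.step h4 h2 hvd hve hva hvb
  have s4 := h.rot.rot.rot.step h4 h2 hve hva hvb hvc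
  have s5 := h.rot.rot.rot.rot.step h4 h2 hva hvb hvc hvd
  tauto

theorem IsC5.clique {a b c d e u v : V} (h4 : NoC4 G) (h : IsC5 G a b c d e)
    (hua : G.Adj u a) (huc : G.Adj u c) (hva : G.Adj v a) (hvc : G.Adj v c) (huv : u ≠ v) :
    G.Adj u v := by
  by_contra hn
  exact h4 u a v c hua hva.symm hvc huc.symm huv h.ne_ac hn h.ac

theorem IsC5.indep {a b c d e u v : V} (h2 : No2K2 G) (h : IsC5 G a b c d e)
    (hua : ¬ G.Adj u a) (hub : ¬ G.Adj u b) (hva : ¬ G.Adj v a) (hvb : ¬ G.Adj v b)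
    (hne1 : u ≠ a) (hne2 : u ≠ b) (hne3 : v ≠ a) (hne4 : v ≠ b) : ¬ G.Adj u v := by
  intro hadj
  exact h2 u v a b hadj h.ab hne1 hne2 hne3 hne4 hua hub hva hvb

variable [Fintype V] [DecidableEq V] [DecidableRel G.Adj]

/-- the main step in the proof of the characterisation of split graphs -/
theorem split_aux (h4 : NoC4 G) (h2 : No2K2 G) (h5 : ∀ a b c d e, ¬ IsC5 G a b c d e)
    {K : Finset V} (hK : ∀ u ∈ K, ∀ v ∈ K, u ≠ v → G.Adj u v)
    (hmax : ∀ K' : Finset V, (∀ u ∈ K', ∀ v ∈ K', u ≠ v → G.Adj u v) → K'.card ≤ K.card)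
    (hdeg : ∀ K' : Finset V, (∀ u ∈ K', ∀ v ∈ K', u ≠ v → G.Adj u v) → K'.card = K.card →
      ∑ v ∈ K', G.degree v ≤ ∑ v ∈ K, G.degree v)
    {x y : V} (hx : x ∉ K) (hy : y ∉ K) (hxy : G.Adj x y)
    (hsub : ∀ v ∈ K, ¬ G.Adj x v → ¬ G.Adj y v) : False := by
  have hux : ∃ u ∈ K, ¬ G.Adj x u := by
    by_contra hcon
    push Not at hcon
    have := hmax (insert x K) (by
      intro u hu v hv huv
      rcases mem_insert.1 hu with rfl | hu' <;> rcases mem_insert.1 hv with rfl | hv'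
      · exact absurd rfl huv
      · exact hcon v hv'
      · exact (hcon u hu').symm
      · exact hK u hu' v hv' huv)
    rw [card_insert_of_notMem hx] at this
    omega
  obtain ⟨u, hu, hxu⟩ := hux
  have hyu := hsub u hu hxu
  have hxK : ∀ v ∈ K, v ≠ u → G.Adj x v := by
    intro v hv hvu
    by_contra hxv
    have hyv := hsub v hv hxv
    exact h2 x y u v hxy (hK u hu v hv hvu.symm) (fun h => hx (h ▸ hu)) (fun h => hx (h ▸ hv))
      (fun h => hy (h ▸ hu)) (fun h => hy (h ▸ hv)) hxu hxv hyu hyv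
  have hvy : ∃ v ∈ K, v ≠ u ∧ ¬ G.Adj y v := by
    by_contra hcon
    push Not at hcon
    have := hmax (insert x (insert y (K.erase u))) (by
      intro p hp q hq hpq
      simp only [mem_insert, mem_erase] at hp hq
      rcases hp with rfl | rfl | ⟨hp1, hp2⟩ <;> rcases hq with rfl | rfl | ⟨hq1, hq2⟩
      · exact absurd rfl hpq
      · exact hxy
      · exact hxK q hq2 hq1
      · exact hxy.symm
      · exact absurd rfl hpq
      · exact hcon q hq2 hq1
      · exact (hxK p hp2 hp1).symm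
      · exact (hcon p hp2 hp1).symm
      · exact hK p hp2 q hq2 hpq)
    rw [card_insert_of_notMem, card_insert_of_notMem, card_erase_of_mem hu] at this
    · have : 0 < K.card := card_pos.2 ⟨u, hu⟩
      omega
    · intro h
      exact hy (mem_of_mem_erase h)
    · intro h
      rcases mem_insert.1 h with h | h
      · exact hxy.ne h
      · exact hx (mem_of_mem_erase h)
  obtain ⟨v, hv, hvu, hyv⟩ := hvy
  have hxv := hxK v hv hvu
  -- degrees
  have hle : G.degree x ≤ G.degree u := by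
    have hxe : x ∉ K.erase u := fun h => hx (mem_of_mem_erase h)
    have hcard : (insert x (K.erase u)).card = K.card := by
      rw [card_insert_of_notMem hxe, card_erase_of_mem hu]
      have : 0 < K.card := card_pos.2 ⟨u, hu⟩
      omega
    have := hdeg (insert x (K.erase u)) (by
      intro p hp q hq hpq
      simp only [mem_insert, mem_erase] at hp hq
      rcases hp with rfl | ⟨hp1, hp2⟩ <;> rcases hq with rfl | ⟨hq1, hq2⟩
      · exact absurd rfl hpq
      · exact hxK q hq2 hq1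
      · exact (hxK p hp2 hp1).symm
      · exact hK p hp2 q hq2 hpq) hcard
    rw [sum_insert hxe] at this
    have h3 := Finset.add_sum_erase K (fun v => G.degree v) hu
    omega
  have hz : ∃ z, G.Adj u z ∧ ¬ G.Adj x z := by
    by_contra hcon
    push Not at hcon
    have hss : G.neighborFinset u ⊂ G.neighborFinset x := by
      refine (Finset.ssubset_iff_of_subset ?_).2 ⟨y, ?_, ?_⟩
      · intro z hz
        rw [SimpleGraph.mem_neighborFinset] at hz ⊢
        exact hcon z hz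
      · rw [SimpleGraph.mem_neighborFinset]
        exact hxy
      · rw [SimpleGraph.mem_neighborFinset]
        exact fun h => hyu h.symm
    have := card_lt_card hss
    rw [SimpleGraph.card_neighborFinset_eq_degree, SimpleGraph.card_neighborFinset_eq_degree]
      at this
    omega
  obtain ⟨z, huz, hxz⟩ := hz
  have hzx : z ≠ x := fun h => hxu (h ▸ huz.symm)
  have hzy : z ≠ y := fun h => hyu (h ▸ huz.symm)
  have hxu' : x ≠ u := fun h => hx (h ▸ hu)
  have hyu' : y ≠ u := fun h => hy (h ▸ hu)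
  have hyz : G.Adj y z := by
    by_contra hyz
    exact h2 x y u z hxy huz hxu' hzx.symm hyu' hzy.symm hxu hxz hyu hyz
  by_cases hzv : G.Adj z v
  · refine h4 x y z v hxy hyz hzv hxv.symm hzx.symm ?_ hxz hyv
    intro h
    exact hy (h ▸ hv)
  · exact h5 x y z u v ⟨hxy, hyz, huz.symm, hK u hu v hv hvu.symm, hxv.symm, hxz, hyu, hzv,
      fun h => hxu h.symm, fun h => hyv h.symm⟩

/-- graphs without induced `C₄`, `2K₂`, `C₅` are split graphs -/
theorem exists_split (h4 : NoC4 G) (h2 : No2K2 G) (h5 : ∀ a b c d e, ¬ IsC5 G a b c d e) :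
    ∃ K : Finset V, (∀ u ∈ K, ∀ v ∈ K, u ≠ v → G.Adj u v) ∧ ∀ u ∉ K, ∀ v ∉ K, ¬ G.Adj u v := by
  classical
  let B := (∑ v, G.degree v) + 1
  obtain ⟨K, hKmem, hKmax⟩ := Finset.exists_max_image
    (univ.filter fun K : Finset V => ∀ u ∈ K, ∀ v ∈ K, u ≠ v → G.Adj u v)
    (fun K => K.card * B + ∑ v ∈ K, G.degree v) ⟨∅, by simp⟩
  have hK := (mem_filter.1 hKmem).2
  have hKmax' : ∀ K' : Finset V, (∀ u ∈ K', ∀ v ∈ K', u ≠ v → G.Adj u v) →
      K'.card * B + ∑ v ∈ K', G.degree v ≤ K.card * B + ∑ v ∈ K, G.degree v :=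
    fun K' h => hKmax K' (mem_filter.2 ⟨mem_univ _, h⟩)
  have hS : ∑ v ∈ K, G.degree v < B :=
    Nat.lt_succ_of_le (sum_le_sum_of_subset (subset_univ K))
  have hmax : ∀ K' : Finset V, (∀ u ∈ K', ∀ v ∈ K', u ≠ v → G.Adj u v) → K'.card ≤ K.card := by
    intro K' h
    have h1 := hKmax' K' h
    by_contra hlt
    push Not at hlt
    have h2 : (K.card + 1) * B ≤ K'.card * B := Nat.mul_le_mul_right _ hlt
    rw [Nat.add_mul, Nat.one_mul] at h2
    omega
  have hdeg : ∀ K' : Finset V, (∀ u ∈ K', ∀ v ∈ K', u ≠ v → G.Adj u v) → K'.card = K.card →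
      ∑ v ∈ K', G.degree v ≤ ∑ v ∈ K, G.degree v := by
    intro K' h hc
    have h1 := hKmax' K' h
    rw [hc] at h1
    omega
  refine ⟨K, hK, ?_⟩
  intro x hx y hy hxy
  by_cases hsub : ∀ v ∈ K, ¬ G.Adj x v → ¬ G.Adj y v
  · exact split_aux h4 h2 h5 hK hmax hdeg hx hy hxy hsub
  · by_cases hsub' : ∀ v ∈ K, ¬ G.Adj y v → ¬ G.Adj x v
    · exact split_aux h4 h2 h5 hK hmax hdeg hy hx hxy.symm hsub'
    · push Not at hsub hsub'
      obtain ⟨u, hu, hxu, hyu⟩ := hsub
      obtain ⟨v, hv, hyv, hxv⟩ := hsub'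
      have huv : u ≠ v := fun h => hxu (h ▸ hxv)
      exact h4 x y u v hxy hyu (hK u hu v hv huv) hxv.symm (fun h => hx (h ▸ hu))
        (fun h => hy (h ▸ hv)) hxu hyv

end Pool.Agent.V11225.PS
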