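import Pool.Agent.V11225.PS.Defs
import Pool.Agent.V11225.PS.Str
import Pool.Agent.V11225.PS.Cost

/-!
# Forbidden induced subgraphs and partitions
-/

namespace Pool.Agent.V11225.PS

open Pool.Agent.NPC Pool.Agent.H633R2 SimpleGraph

theorem c4_adj : ∀ i j : Fin 4, (cycleGraph 4).Adj i j ↔
    (i.val + 1 = j.val ∨ j.val + 1 = i.val ∨ i.val + 3 = j.val ∨ j.val + 3 = i.val) := by
  decide

theorem noC4_iff' {V : Type} (G : SimpleGraph V) :
    NoC4 G ↔ ¬ (cycleGraph 4).IsIndContained G := by
  constructor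
  · rintro h ⟨f⟩
    have key : ∀ i j : Fin 4, G.Adj (f i) (f j) ↔
        (i.val + 1 = j.val ∨ j.val + 1 = i.val ∨ i.val + 3 = j.val ∨ j.val + 3 = i.val) :=
      fun i j => f.map_rel_iff.trans (c4_adj i j)
    refine h (f 0) (f 1) (f 2) (f 3) ?_ ?_ ?_ ?_ ?_ ?_ ?_ ?_
    · rw [key]; decide
    · rw [key]; decide
    · rw [key]; decide
    · rw [key]; decide
    · intro e; exact absurd (f.injective e) (by decide)
    · intro e; exact absurd (f.injective e) (by decide)
    · rw [key]; decide
    · rw [key]; decide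
  · intro h a b c d hab hbc hcd hda hac hbd nac nbd
    refine h ⟨⟨⟨![a, b, c, d], ?_⟩, ?_⟩⟩
    · intro i j hij
      fin_cases i <;> fin_cases j <;> simp at hij ⊢ <;>
        first
        | exact hab.ne hij | exact hab.ne hij.symm | exact hbc.ne hij | exact hbc.ne hij.symm
        | exact hcd.ne hij | exact hcd.ne hij.symm | exact hda.ne hij | exact hda.ne hij.symm
        | exact hac hij | exact hac hij.symm | exact hbd hij | exact hbd hij.symm
    · intro i j
      change G.Adj (![a, b, c, d] i) (![a, b, c, d] j) ↔ (cycleGraph 4).Adj i j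
      rw [c4_adj]
      fin_cases i <;> fin_cases j <;>
        simp [hab, hab.symm, hbc, hbc.symm, hcd, hcd.symm, hda, hda.symm, nac, nbd,
          G.adj_comm c a, G.adj_comm d b]

theorem noC4_iff {V : Type} (G : SimpleGraph V) : NoC4 G ↔ ¬ C4.2.IsIndContained G :=
  noC4_iff' G

theorem no2K2_iff' {V : Type} (G : SimpleGraph V) :
    No2K2 G ↔ ¬ ((cycleGraph 4)ᶜ).IsIndContained G := by
  constructor
  · rintro h ⟨f⟩
    have key : ∀ i j : Fin 4, G.Adj (f i) (f j) ↔ (i.val + 2 = j.val ∨ j.val + 2 = i.val) := by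
      intro i j
      refine f.map_rel_iff.trans ?_
      change (cycleGraph 4)ᶜ.Adj i j ↔ _
      rw [SimpleGraph.compl_adj, c4_adj]
      revert i j
      decide
    refine h (f 0) (f 2) (f 1) (f 3) ?_ ?_ ?_ ?_ ?_ ?_ ?_ ?_ ?_ ?_
    · rw [key]; decide
    · rw [key]; decide
    · intro e; exact absurd (f.injective e) (by decide)
    · intro e; exact absurd (f.injective e) (by decide)
    · intro e; exact absurd (f.injective e) (by decide)
    · intro e; exact absurd (f.injective e) (by decide)
    · rw [key]; decide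
    · rw [key]; decide
    · rw [key]; decide
    · rw [key]; decide
  · intro h a b c d hab hcd hac had hbc hbd nac nad nbc nbd
    refine h ⟨⟨⟨![a, c, b, d], ?_⟩, ?_⟩⟩
    · intro i j hij
      fin_cases i <;> fin_cases j <;> simp at hij ⊢ <;>
        first
        | exact hab.ne hij | exact hab.ne hij.symm | exact hcd.ne hij | exact hcd.ne hij.symm
        | exact hac hij | exact hac hij.symm | exact had hij | exact had hij.symm
        | exact hbc hij | exact hbc hij.symm | exact hbd hij | exact hbd hij.symm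
    · intro i j
      change G.Adj (![a, c, b, d] i) (![a, c, b, d] j) ↔ (cycleGraph 4)ᶜ.Adj i j
      rw [SimpleGraph.compl_adj, c4_adj]
      fin_cases i <;> fin_cases j <;>
        simp [hab, hab.symm, hcd, hcd.symm, nac, nbd, nad, nbc,
          G.adj_comm c a, G.adj_comm d b, G.adj_comm d a, G.adj_comm c b]

theorem no2K2_iff {V : Type} (G : SimpleGraph V) : No2K2 G ↔ ¬ twoK2.2.IsIndContained G :=
  no2K2_iff' G

theorem free_iff {V : Type} (G : SimpleGraph V) :
    Free {C4, twoK2} G ↔ NoC4 G ∧ No2K2 G := by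
  unfold Free
  simp only [Set.mem_insert_iff, Set.mem_singleton_iff, forall_eq_or_imp, forall_eq]
  rw [noC4_iff, no2K2_iff]

/-- roles of the vertices of a five-cycle -/
def Ok {V : Type} (ρ : V → ℕ) : Prop :=
  (∀ v, ρ v ≤ 6) ∧ ∀ u v, 2 ≤ ρ u → ρ u = ρ v → u = v

theorem tg11 (q : ℕ) (hq : q ≠ 0) (a : Bool) : tg 1 q a = true := by
  unfold tg
  rw [if_neg (by omega), if_neg hq, if_pos rfl]

theorem tg00 (q : ℕ) (hq : q ≠ 1) (a : Bool) : tg 0 q a = false := by
  unfold tg
  rw [if_pos rfl, if_neg hq]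

/-- the cyclic relation -/
def cyc (p q : ℕ) : Prop := p + 1 = q ∨ q + 1 = p ∨ p + 4 = q ∨ q + 4 = p

theorem tg22 {p q : ℕ} (hp : 2 ≤ p) (hq : 2 ≤ q) (a : Bool) : tg p q a = true ↔ cyc p q := by
  unfold tg cyc
  rw [if_neg (by omega), if_neg (by omega), if_neg (by omega), if_neg (by omega),
    decide_eq_true_eq]

/-- a graph with the adjacencies given by roles has no induced `2K₂` -/
theorem no2K2_of_roles {V : Type} {G : SimpleGraph V} [DecidableRel G.Adj] (ρ : V → ℕ) (hρ : Ok ρ)
    (h : ∀ u v, u ≠ v → tg (ρ u) (ρ v) (decide (G.Adj u v)) = decide (G.Adj u v)) : No2K2 G := by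
  intro a b c d hab hcd hac had hbc hbd nac nad nbc nbd
  have hK : ∀ u v, u ≠ v → ρ u = 1 → ¬ G.Adj u v → ρ v = 0 := by
    intro u v huv hu hn
    by_contra hv
    have := h u v huv
    rw [hu, tg11 _ hv] at this
    exact hn (of_decide_eq_true this.symm)
  have hI : ∀ u v, u ≠ v → ρ u = 0 → G.Adj u v → ρ v = 1 := by
    intro u v huv hu hn
    by_contra hv
    have := h u v huv
    rw [hu, tg00 _ hv] at this
    exact of_decide_eq_false this.symm hn
  -- no vertex has role `1`
  have h1 : ∀ u v w, G.Adj v w → u ≠ v → u ≠ w → ¬ G.Adj u v → ¬ G.Adj u w → ρ u ≠ 1 := by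
    intro u v w hvw huv huw nuv nuw hu
    have e1 := hK u v huv hu nuv
    have e2 := hK u w huw hu nuw
    have := hI v w hvw.ne e1 hvw
    omega
  have a1 := h1 a c d hcd hac had nac nad
  have b1 := h1 b c d hcd hbc hbd nbc nbd
  have c1 := h1 c a b hab hac.symm hbc.symm (fun h => nac h.symm) (fun h => nbc h.symm)
  have d1 := h1 d a b hab had.symm hbd.symm (fun h => nad h.symm) (fun h => nbd h.symm)
  have a0 : ρ a ≠ 0 := fun h => b1 (hI a b hab.ne h hab)
  have b0 : ρ b ≠ 0 := fun h => a1 (hI b a hab.symm.ne h hab.symm)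
  have c0 : ρ c ≠ 0 := fun h => d1 (hI c d hcd.ne h hcd)
  have d0 : ρ d ≠ 0 := fun h => c1 (hI d c hcd.symm.ne h hcd.symm)
  have r2 : ∀ u v, u ≠ v → 2 ≤ ρ u → 2 ≤ ρ v → (G.Adj u v ↔ cyc (ρ u) (ρ v)) := by
    intro u v huv hu hv
    have := h u v huv
    rw [← tg22 hu hv (decide (G.Adj u v)), this, decide_eq_true_eq]
  have eab := (r2 a b hab.ne (by omega) (by omega)).1 hab
  have ecd := (r2 c d hcd.ne (by omega) (by omega)).1 hcd
  have eac := (r2 a c hac (by omega) (by omega)).not.1 nac
  have ead := (r2 a d had (by omega) (by omega)).not.1 nad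
  have ebc := (r2 b c hbc (by omega) (by omega)).not.1 nbc
  have ebd := (r2 b d hbd (by omega) (by omega)).not.1 nbd
  have la := hρ.1 a
  have lb := hρ.1 b
  have lc := hρ.1 c
  have ld := hρ.1 d
  have n1 : ρ a ≠ ρ c := fun e => hac (hρ.2 a c (by omega) e)
  have n2 : ρ a ≠ ρ d := fun e => had (hρ.2 a d (by omega) e)
  have n3 : ρ b ≠ ρ c := fun e => hbc (hρ.2 b c (by omega) e)
  have n4 : ρ b ≠ ρ d := fun e => hbd (hρ.2 b d (by omega) e)
  unfold cyc at *
  omega

/-- a graph with the adjacencies given by roles has no induced `C₄` -/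
theorem noC4_of_roles {V : Type} {G : SimpleGraph V} [DecidableRel G.Adj] (ρ : V → ℕ) (hρ : Ok ρ)
    (h : ∀ u v, u ≠ v → tg (ρ u) (ρ v) (decide (G.Adj u v)) = decide (G.Adj u v)) : NoC4 G := by
  intro a b c d hab hbc hcd hda hac hbd nac nbd
  have hK : ∀ u v, u ≠ v → ρ u = 1 → ¬ G.Adj u v → ρ v = 0 := by
    intro u v huv hu hn
    by_contra hv
    have := h u v huv
    rw [hu, tg11 _ hv] at this
    exact hn (of_decide_eq_true this.symm)
  have hI : ∀ u v, u ≠ v → ρ u = 0 → G.Adj u v → ρ v = 1 := by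
    intro u v huv hu hn
    by_contra hv
    have := h u v huv
    rw [hu, tg00 _ hv] at this
    exact of_decide_eq_false this.symm hn
  -- no vertex has role `0`
  have h1 : ∀ u v w, G.Adj u v → G.Adj u w → v ≠ w → ¬ G.Adj v w → ρ u ≠ 0 := by
    intro u v w huv huw hvw nvw hu
    have e1 := hI u v huv.ne hu huv
    have e2 := hI u w huw.ne hu huw
    have := hK v w hvw e1 nvw
    omega
  have a0 := h1 a b d hab hda.symm hbd nbd
  have b0 := h1 b a c hab.symm hbc hac nac
  have c0 := h1 c b d hbc.symm hcd hbd nbd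
  have d0 := h1 d a c hda hcd.symm hac nac
  have a1 : ρ a ≠ 1 := fun h => c0 (hK a c hac h nac)
  have c1 : ρ c ≠ 1 := fun h => a0 (hK c a hac.symm h (fun h => nac h.symm))
  have b1 : ρ b ≠ 1 := fun h => d0 (hK b d hbd h nbd)
  have d1 : ρ d ≠ 1 := fun h => b0 (hK d b hbd.symm h (fun h => nbd h.symm))
  have r2 : ∀ u v, u ≠ v → 2 ≤ ρ u → 2 ≤ ρ v → (G.Adj u v ↔ cyc (ρ u) (ρ v)) := by
    intro u v huv hu hv
    have := h u v huv
    rw [← tg22 hu hv (decide (G.Adj u v)), this, decide_eq_true_eq]
  have eab := (r2 a b hab.ne (by omega) (by omega)).1 hab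
  have ebc := (r2 b c hbc.ne (by omega) (by omega)).1 hbc
  have ecd := (r2 c d hcd.ne (by omega) (by omega)).1 hcd
  have eda := (r2 d a hda.ne (by omega) (by omega)).1 hda
  have eac := (r2 a c hac (by omega) (by omega)).not.1 nac
  have ebd := (r2 b d hbd (by omega) (by omega)).not.1 nbd
  have la := hρ.1 a
  have lb := hρ.1 b
  have lc := hρ.1 c
  have ld := hρ.1 d
  have n1 : ρ a ≠ ρ c := fun e => hac (hρ.2 a c (by omega) e)
  have n2 : ρ b ≠ ρ d := fun e => hbd (hρ.2 b d (by omega) e)
  unfold cyc at *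
  omega

/-- the roles in a graph without induced `C₄` and `2K₂` -/
theorem exists_roles {n : ℕ} (G : SimpleGraph (Fin n)) [DecidableRel G.Adj] (h4 : NoC4 G)
    (h2 : No2K2 G) : ∃ (c : Fin 5 → ℕ) (K : Finset ℕ), (∀ i, c i ≤ n) ∧
      (∀ v ∈ K, v < n ∧ ∀ i, v ≠ c i) ∧
      ∀ u v : Fin n, u ≠ v → tg
        (role (fun w => if w = c 0 then 2 else if w = c 1 then 3 else if w = c 2 then 4 else
          if w = c 3 then 5 else if w = c 4 then 6 else 0) (fun v => decide (v ∈ K)) u)
        (role (fun w => if w = c 0 then 2 else if w = c 1 then 3 else if w = c 2 then 4 else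
          if w = c 3 then 5 else if w = c 4 then 6 else 0) (fun v => decide (v ∈ K)) v)
        (decide (G.Adj u v)) = decide (G.Adj u v) := by
  classical
  by_cases h5 : ∃ a b c d e, IsC5 G a b c d e
  · obtain ⟨a, b, c, d, e, hC⟩ := h5
    have ac := hC.ne_ac
    have bd := hC.rot.ne_ac
    have ce := hC.rot.rot.ne_ac
    have da := hC.rot.rot.rot.ne_ac
    have eb := hC.rot.rot.rot.rot.ne_ac
    have ab := hC.ab.ne
    have bc := hC.bc.ne
    have cd := hC.cd.ne
    have de := hC.de.ne
    have ea := hC.ea.ne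
    refine ⟨![(a : ℕ), b, c, d, e],
      (Finset.univ.filter fun v : Fin n => G.Adj v a ∧ G.Adj v b ∧ v ≠ a ∧ v ≠ b ∧ v ≠ c ∧ v ≠ d ∧
        v ≠ e).map Fin.valEmbedding, ?_, ?_, ?_⟩
    · intro i
      fin_cases i <;> simp [Fin.is_le', (Fin.is_lt _).le]
    · intro v hv
      simp only [Finset.mem_map, Finset.mem_filter, Finset.mem_univ, true_and] at hv
      obtain ⟨w, hw, rfl⟩ := hv
      refine ⟨w.2, ?_⟩
      intro i
      have hval : ∀ z : Fin n, w ≠ z → (Fin.valEmbedding w : ℕ) ≠ (z : ℕ) :=
        fun z h h' => h (Fin.ext h')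
      fin_cases i
      · exact hval _ hw.2.2.1
      · exact hval _ hw.2.2.2.1
      · exact hval _ hw.2.2.2.2.1
      · exact hval _ hw.2.2.2.2.2.1
      · exact hval _ hw.2.2.2.2.2.2
    · -- the role of a vertex
      let ρ : Fin n → ℕ := fun v => if v = a then 2 else if v = b then 3 else if v = c then 4 else
        if v = d then 5 else if v = e then 6 else if G.Adj v a then 1 else 0
      have hρ : ∀ v : Fin n, role (fun w => if w = ![(a : ℕ), b, c, d, e] 0 then 2 else
          if w = ![(a : ℕ), b, c, d, e] 1 then 3 else if w = ![(a : ℕ), b, c, d, e] 2 then 4 else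
          if w = ![(a : ℕ), b, c, d, e] 3 then 5 else if w = ![(a : ℕ), b, c, d, e] 4 then 6
            else 0)
          (fun v => decide (v ∈ (Finset.univ.filter fun v : Fin n => G.Adj v a ∧ G.Adj v b ∧
            v ≠ a ∧ v ≠ b ∧ v ≠ c ∧ v ≠ d ∧ v ≠ e).map Fin.valEmbedding)) v = ρ v := by
        intro v
        have e0 : ∀ z : Fin n, ((v : ℕ) = (z : ℕ)) = (v = z) := fun z => propext Fin.val_inj
        have e1 : (v : ℕ) ∈ (Finset.univ.filter fun v : Fin n => G.Adj v a ∧ G.Adj v b ∧
            v ≠ a ∧ v ≠ b ∧ v ≠ c ∧ v ≠ d ∧ v ≠ e).map Fin.valEmbedding ↔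
            (G.Adj v a ∧ G.Adj v b ∧ v ≠ a ∧ v ≠ b ∧ v ≠ c ∧ v ≠ d ∧ v ≠ e) := by
          simp only [Finset.mem_map, Finset.mem_filter, Finset.mem_univ, true_and]
          constructor
          · rintro ⟨w, hw, hwv⟩
            have : w = v := Fin.ext hwv
            rw [← this]
            exact hw
          · intro hw
            exact ⟨v, hw, rfl⟩
        unfold role
        simp only [Matrix.cons_val_zero, Matrix.cons_val_one, Matrix.cons_val, e0, ρ,
          decide_eq_true_eq, e1]
        by_cases ha : v = a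
        · simp [ha]
        by_cases hb : v = b
        · simp [hb, ab.symm]
        by_cases hc : v = c
        · simp [hc, ac.symm, bc.symm]
        by_cases hd : v = d
        · simp [hd, da, bd.symm, cd.symm]
        by_cases he : v = e
        · simp [he, ea, eb, ce.symm, de.symm]
        · have hall := hC.all h4 h2 ha hb hc hd he
          by_cases hva : G.Adj v a
          · have hvb : G.Adj v b := by tauto
            simp [ha, hb, hc, hd, he, hva, hvb]
          · simp [ha, hb, hc, hd, he, hva]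
      intro u v huv
      rw [hρ, hρ]
      -- adjacency of a vertex outside with the cycle
      have hout : ∀ v, v ≠ a → v ≠ b → v ≠ c → v ≠ d → v ≠ e →
          (G.Adj v a ∧ G.Adj v b ∧ G.Adj v c ∧ G.Adj v d ∧ G.Adj v e) ∨
          (¬ G.Adj v a ∧ ¬ G.Adj v b ∧ ¬ G.Adj v c ∧ ¬ G.Adj v d ∧ ¬ G.Adj v e) :=
        fun v h1 h2' h3 h4' h5 => hC.all h4 h2 h1 h2' h3 h4' h5
      -- symmetry
      have main : ∀ u v : Fin n, u ≠ v → ρ u ≤ ρ v →
          tg (ρ u) (ρ v) (decide (G.Adj u v)) = decide (G.Adj u v) := by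
        have ra : ρ a = 2 := by simp [ρ]
        have rb : ρ b = 3 := by simp [ρ, ab.symm]
        have rc : ρ c = 4 := by simp [ρ, ac.symm, bc.symm]
        have rd : ρ d = 5 := by simp [ρ, da, bd.symm, cd.symm]
        have re : ρ e = 6 := by simp [ρ, ea, eb, ce.symm, de.symm]
        have rout : ∀ v, v ≠ a → v ≠ b → v ≠ c → v ≠ d → v ≠ e →
            ρ v = if G.Adj v a then 1 else 0 := by
          intro v h1 h2 h3 h4 h5
          simp [ρ, h1, h2, h3, h4, h5]
        -- outside vertex and cycle vertex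
        have oc : ∀ u v : Fin n, u ≠ a → u ≠ b → u ≠ c → u ≠ d → u ≠ e →
            (v = a ∨ v = b ∨ v = c ∨ v = d ∨ v = e) →
            tg (ρ u) (ρ v) (decide (G.Adj u v)) = decide (G.Adj u v) := by
          intro u v h1 h2 h3 h4 h5 hv
          have h2v : 2 ≤ ρ v := by
            rcases hv with rfl | rfl | rfl | rfl | rfl <;> omega
          rw [rout u h1 h2 h3 h4 h5]
          rcases hout u h1 h2 h3 h4 h5 with h | h
          · rw [if_pos h.1, tg11 _ (by omega)]
            rcases hv with rfl | rfl | rfl | rfl | rfl <;> simp [h]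
          · rw [if_neg h.1, tg00 _ (by omega)]
            rcases hv with rfl | rfl | rfl | rfl | rfl <;> simp [h]
        have oo : ∀ u v : Fin n, u ≠ v → u ≠ a → u ≠ b → u ≠ c → u ≠ d → u ≠ e →
            v ≠ a → v ≠ b → v ≠ c → v ≠ d → v ≠ e →
            tg (ρ u) (ρ v) (decide (G.Adj u v)) = decide (G.Adj u v) := by
          intro u v huv h1 h2' h3 h4' h5 g1 g2 g3 g4 g5
          rw [rout u h1 h2' h3 h4' h5, rout v g1 g2 g3 g4 g5]
          rcases hout u h1 h2' h3 h4' h5 with h | h <;> rcases hout v g1 g2 g3 g4 g5 with g | g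
          · have := hC.clique h4 h.1 h.2.2.1 g.1 g.2.2.1 huv
            simp [h.1, g.1, this, tg]
          · simp [h.1, g.1, tg]
          · simp [h.1, g.1, tg]
          · have := hC.indep h2 h.1 h.2.1 g.1 g.2.1 h1 h2' g1 g2
            simp [h.1, g.1, this, tg]
        have cc : ∀ u v : Fin n, u ≠ v → (u = a ∨ u = b ∨ u = c ∨ u = d ∨ u = e) →
            (v = a ∨ v = b ∨ v = c ∨ v = d ∨ v = e) →
            tg (ρ u) (ρ v) (decide (G.Adj u v)) = decide (G.Adj u v) := by
          intro u v huv hu hv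
          have h2u : 2 ≤ ρ u := by
            rcases hu with rfl | rfl | rfl | rfl | rfl <;> omega
          have h2v : 2 ≤ ρ v := by
            rcases hv with rfl | rfl | rfl | rfl | rfl <;> omega
          rw [Bool.eq_iff_iff, tg22 h2u h2v, decide_eq_true_eq]
          have q1 := hC.ab
          have q2 := hC.bc
          have q3 := hC.cd
          have q4 := hC.de
          have q5 := hC.ea
          have p1 := hC.ac
          have p2 := hC.bd
          have p3 := hC.ce
          have p4 := hC.da
          have p5 := hC.eb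
          have m1 : ¬ G.Adj c a := fun h => p1 h.symm
          have m2 : ¬ G.Adj d b := fun h => p2 h.symm
          have m3 : ¬ G.Adj e c := fun h => p3 h.symm
          have m4 : ¬ G.Adj a d := fun h => p4 h.symm
          have m5 : ¬ G.Adj b e := fun h => p5 h.symm
          rcases hu with rfl | rfl | rfl | rfl | rfl <;> rcases hv with rfl | rfl | rfl | rfl | rfl <;>
            first
            | exact absurd rfl huv
            | (simp only [ra, rb, rc, rd, re, cyc]
               simp [q1, q2, q3, q4, q5, q1.symm, q2.symm, q3.symm, q4.symm, q5.symm, p1, p2, p3,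
                p4, p5, m1, m2, m3, m4, m5])
        intro u v huv _
        by_cases hu : (u = a ∨ u = b ∨ u = c ∨ u = d ∨ u = e)
        · by_cases hv : (v = a ∨ v = b ∨ v = c ∨ v = d ∨ v = e)
          · exact cc u v huv hu hv
          · push Not at hv
            have := oc v u hv.1 hv.2.1 hv.2.2.1 hv.2.2.2.1 hv.2.2.2.2 hu
            rw [tg_comm]
            have e1 : decide (G.Adj u v) = decide (G.Adj v u) := by
              rw [decide_eq_decide]
              exact G.adj_comm u v
            rw [e1]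
            exact this
        · push Not at hu
          by_cases hv : (v = a ∨ v = b ∨ v = c ∨ v = d ∨ v = e)
          · exact oc u v hu.1 hu.2.1 hu.2.2.1 hu.2.2.2.1 hu.2.2.2.2 hv
          · push Not at hv
            exact oo u v huv hu.1 hu.2.1 hu.2.2.1 hu.2.2.2.1 hu.2.2.2.2 hv.1 hv.2.1 hv.2.2.1
              hv.2.2.2.1 hv.2.2.2.2
      rcases Nat.le_total (ρ u) (ρ v) with h | h
      · exact main u v huv h
      · have := main v u huv.symm h
        rw [tg_comm]
        have e1 : decide (G.Adj u v) = decide (G.Adj v u) := by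
          rw [decide_eq_decide]
          exact G.adj_comm u v
        rw [e1]
        exact this
  · push Not at h5
    obtain ⟨K, hK1, hK2⟩ := exists_split h4 h2 h5
    refine ⟨fun _ => n, K.map Fin.valEmbedding, fun _ => le_rfl, ?_, ?_⟩
    · intro v hv
      simp only [Finset.mem_map] at hv
      obtain ⟨w, _, rfl⟩ := hv
      exact ⟨w.2, fun _ => w.2.ne⟩
    · intro u v huv
      have hr : ∀ v : Fin n, role (fun w => if w = n then 2 else if w = n then 3 else
          if w = n then 4 else if w = n then 5 else if w = n then 6 else 0)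
          (fun v => decide (v ∈ K.map Fin.valEmbedding)) v = if v ∈ K then 1 else 0 := by
        intro v
        have e1 : (v : ℕ) ∈ K.map Fin.valEmbedding ↔ v ∈ K := by
          simp only [Finset.mem_map]
          constructor
          · rintro ⟨w, hw, hwv⟩
            have : w = v := Fin.ext hwv
            rw [← this]
            exact hw
          · intro hw
            exact ⟨v, hw, rfl⟩
        unfold role
        simp only [v.2.ne, if_false, if_true, decide_eq_true_eq, e1]
      rw [hr, hr]
      by_cases hu : u ∈ K <;> by_cases hv : v ∈ K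
      · simp [hu, hv, hK1 u hu v hv huv, tg]
      · simp [hu, hv, tg]
      · simp [hu, hv, tg]
      · simp [hu, hv, hK2 u hu v hv, tg]

end Pool.Agent.V11225.PS
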