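import Pool.Agent.V11225.PS.Main

/-!
# The running time
-/

namespace Pool.Agent.V11225.PS

open Pool.Agent.NPC Pool.Agent.H633R2 Finset

variable {α : Type} [TEnc α]

theorem sum_range_eq (n : ℕ) (f : ℕ → ℕ) : ((List.range n).map f).sum = ∑ i ∈ range n, f i := by
  induction n with
  | zero => simp
  | succ n ih =>
    rw [List.range_succ, List.map_append, List.sum_append, ih, sum_range_succ]
    simp

theorem p_rng {f : α → List (List Bool)} (hf : Poly f) :
    Poly (fun a => List.range (f a).length) := (UPoly.length hf).range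
theorem p_rng1 {f : α → List (List Bool)} (hf : Poly f) :
    Poly (fun a => List.range ((f a).length + 1)) :=
  (UPoly.add (UPoly.length hf) (UPoly.const 1)).range

theorem p_entry' {f : α → List (List Bool)} {i j : α → ℕ} (hf : Poly f) (hi : Poly i)
    (hj : Poly j) : Poly (fun a => entry (f a) (i a) (j a)) :=
  Pool.Agent.H257R2.LJW.entry_poly hf hi hj

attribute [local fun_prop] p_rng p_rng1 p_entry'

theorem p_aM {f : α → List (List Bool)} {i j : α → ℕ} (hf : Poly f) (hi : Poly i)
    (hj : Poly j) : Poly (fun a => aM (f a) (i a) (j a)) := by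
  unfold aM; fun_prop

theorem p_core {c0 c1 c2 c3 c4 w : α → ℕ} (h0 : Poly c0) (h1 : Poly c1) (h2 : Poly c2)
    (h3 : Poly c3) (h4 : Poly c4) (hw : Poly w) :
    Poly (fun a => core (c0 a) (c1 a) (c2 a) (c3 a) (c4 a) (w a)) := by
  unfold core; fun_prop

attribute [local fun_prop] p_aM p_core

theorem p_wt {f : α → List (List Bool)} {c0 c1 c2 c3 c4 v : α → ℕ} (hf : Poly f) (h0 : Poly c0)
    (h1 : Poly c1) (h2 : Poly c2) (h3 : Poly c3) (h4 : Poly c4) (hv : Poly v) :
    Poly (fun a => wt (f a).length (aM (f a)) (core (c0 a) (c1 a) (c2 a) (c3 a) (c4 a)) (v a)) := by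
  have h : Poly (fun a => ((List.range (f a).length).map fun j =>
      if aM (f a) (v a) j = true then
        (if core (c0 a) (c1 a) (c2 a) (c3 a) (c4 a) j = 0 then 1 else 2) else 0).sum) := by
    fun_prop
  refine h.congr fun a => ?_
  rw [sum_range_eq]
  rfl

attribute [local fun_prop] p_wt

theorem p_key {f : α → List (List Bool)} {c0 c1 c2 c3 c4 v : α → ℕ} (hf : Poly f) (h0 : Poly c0)
    (h1 : Poly c1) (h2 : Poly c2) (h3 : Poly c3) (h4 : Poly c4) (hv : Poly v) :
    Poly (fun a => key (f a).length (aM (f a)) (core (c0 a) (c1 a) (c2 a) (c3 a) (c4 a)) (v a)) := by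
  unfold key; fun_prop

attribute [local fun_prop] p_key

theorem p_thr {f : α → List (List Bool)} {c0 c1 c2 c3 c4 u v : α → ℕ} (hf : Poly f)
    (h0 : Poly c0) (h1 : Poly c1) (h2 : Poly c2) (h3 : Poly c3) (h4 : Poly c4) (hu : Poly u)
    (hv : Poly v) :
    Poly (fun a => thr (f a).length (aM (f a)) (core (c0 a) (c1 a) (c2 a) (c3 a) (c4 a)) (u a)
      (v a)) := by
  unfold thr; fun_prop

attribute [local fun_prop] p_thr

theorem p_role {f : α → List (List Bool)} {c0 c1 c2 c3 c4 u v : α → ℕ} (hf : Poly f)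
    (h0 : Poly c0) (h1 : Poly c1) (h2 : Poly c2) (h3 : Poly c3) (h4 : Poly c4) (hu : Poly u)
    (hv : Poly v) :
    Poly (fun a => role (core (c0 a) (c1 a) (c2 a) (c3 a) (c4 a))
      (thr (f a).length (aM (f a)) (core (c0 a) (c1 a) (c2 a) (c3 a) (c4 a)) (u a)) (v a)) := by
  unfold role; fun_prop

theorem p_tg {p q : α → ℕ} {b : α → Bool} (hp : Poly p) (hq : Poly q) (hb : Poly b) :
    Poly (fun a => tg (p a) (q a) (b a)) := by
  unfold tg; fun_prop

attribute [local fun_prop] p_role p_tg

theorem p_pen {p q : α → ℕ} {b : α → Bool} (hp : Poly p) (hq : Poly q) (hb : Poly b) :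
    Poly (fun a => pen (p a) (q a) (b a)) := by
  unfold pen; fun_prop

attribute [local fun_prop] p_pen

theorem p_cost {f : α → List (List Bool)} {c0 c1 c2 c3 c4 u : α → ℕ} (hf : Poly f)
    (h0 : Poly c0) (h1 : Poly c1) (h2 : Poly c2) (h3 : Poly c3) (h4 : Poly c4) (hu : Poly u) :
    Poly (fun a => cost2 (f a).length (aM (f a)) (role (core (c0 a) (c1 a) (c2 a) (c3 a) (c4 a))
      (thr (f a).length (aM (f a)) (core (c0 a) (c1 a) (c2 a) (c3 a) (c4 a)) (u a)))) := by
  have h : Poly (fun a => ((List.range (f a).length).map fun i =>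
      ((List.range (f a).length).map fun j => if i = j then 0 else
        pen (role (core (c0 a) (c1 a) (c2 a) (c3 a) (c4 a))
          (thr (f a).length (aM (f a)) (core (c0 a) (c1 a) (c2 a) (c3 a) (c4 a)) (u a)) i)
          (role (core (c0 a) (c1 a) (c2 a) (c3 a) (c4 a))
          (thr (f a).length (aM (f a)) (core (c0 a) (c1 a) (c2 a) (c3 a) (c4 a)) (u a)) j)
          (aM (f a) i j)).sum).sum) := by
    fun_prop
  refine h.congr fun a => ?_
  rw [sum_range_eq]
  unfold cost2
  exact sum_congr rfl fun i _ => sum_range_eq _ _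

attribute [local fun_prop] p_cost

theorem p_chk {x : α → List (List Bool) × ℕ} {c0 c1 c2 c3 c4 u : α → ℕ} (hx : Poly x)
    (h0 : Poly c0) (h1 : Poly c1) (h2 : Poly c2) (h3 : Poly c3) (h4 : Poly c4) (hu : Poly u) :
    Poly (fun a => chk (x a) (c0 a) (c1 a) (c2 a) (c3 a) (c4 a) (u a)) := by
  unfold chk
  exact Poly.decide_le (p_cost (Poly.fst hx) h0 h1 h2 h3 h4 hu) (by fun_prop)

attribute [local fun_prop] p_chk

theorem p_alg : Poly alg := by
  unfold alg
  fun_prop

/-- `{C₄, 2K₂}`-free Edge Editing can be solved in polynomial time -/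
theorem editing_poly : ∃ d : List (List Bool) × ℕ → Bool, Poly d ∧
    ∀ x, d x = true ↔ Editing {C4, twoK2} x := ⟨alg, p_alg, alg_correct⟩

/-- the complete graph with one vertex is free -/
theorem yes_inst : Editing {C4, twoK2} (([] : List (List Bool)), 0) := by
  refine ⟨⊥, ?_, ?_⟩
  · rw [free_iff]
    exact ⟨fun a => a.elim0, fun a => a.elim0⟩
  · have : ((symmDiff (graphOf ([] : List (List Bool))).edgeSet
        (⊥ : SimpleGraph (Fin 0)).edgeSet) : Set (Sym2 (Fin 0))) = ∅ := by
      ext e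
      induction e with
      | _ a b => exact a.elim0
    change (symmDiff (graphOf ([] : List (List Bool))).edgeSet
        (⊥ : SimpleGraph (Fin 0)).edgeSet).ncard ≤ 0
    rw [this]
    simp

/-- the matrix of the four-cycle -/
def mC4 : List (List Bool) :=
  [[false, true, false, true], [true, false, true, false], [false, true, false, true],
    [true, false, true, false]]

theorem no_inst : ¬ Editing {C4, twoK2} (mC4, 0) := by
  rintro ⟨G', hfree, hk⟩
  change (symmDiff (graphOf mC4).edgeSet G'.edgeSet).ncard ≤ 0 at hk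
  have h1 : symmDiff (graphOf mC4).edgeSet G'.edgeSet = ∅ := by
    rwa [Nat.le_zero, Set.ncard_eq_zero (Set.toFinite _)] at hk
  have h2 : (graphOf mC4).edgeSet = G'.edgeSet := symmDiff_eq_bot.1 h1
  have h3 : graphOf mC4 = G' := SimpleGraph.edgeSet_inj.1 h2
  have h4 := (free_iff G').1 hfree
  rw [← h3] at h4
  have adj : ∀ i j : Fin 4, (graphOf mC4).Adj i j ↔
      (i ≠ j ∧ (entry mC4 i j = true ∨ entry mC4 j i = true)) := fun i j => Iff.rfl
  refine h4.1 (0 : Fin 4) (1 : Fin 4) (2 : Fin 4) (3 : Fin 4) ?_ ?_ ?_ ?_ ?_ ?_ ?_ ?_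
  · rw [adj]; decide
  · rw [adj]; decide
  · rw [adj]; decide
  · rw [adj]; decide
  · decide
  · decide
  · rw [adj]; decide
  · rw [adj]; decide

/-- the kernel -/
def ker (x : List (List Bool) × ℕ) : List (List Bool) × ℕ :=
  if alg x = true then ([], 0) else (mC4, 0)

theorem ker_poly : Poly ker := by
  unfold ker
  have := p_alg
  fun_prop

theorem ker_iff (x : List (List Bool) × ℕ) :
    Editing {C4, twoK2} (ker x) ↔ Editing {C4, twoK2} x := by
  unfold ker
  split_ifs with h
  · exact ⟨fun _ => (alg_correct x).1 h, fun _ => yes_inst⟩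
  · exact ⟨fun h' => absurd h' no_inst, fun h' => absurd ((alg_correct x).2 h') h⟩

/-- `{C₄, 2K₂}`-free Edge Editing has a kernel of constant size -/
theorem kernel : ∃ f : List (List Bool) × ℕ → List (List Bool) × ℕ, Poly f ∧
    (∀ x, Editing {C4, twoK2} (f x) ↔ Editing {C4, twoK2} x) ∧
    ∃ c, ∀ x, (bits (f x)).length ≤ c := by
  refine ⟨ker, ker_poly, ker_iff, (bits (([] : List (List Bool)), 0)).length +
    (bits (mC4, 0)).length, fun x => ?_⟩
  unfold ker
  split_ifs with h
  · exact Nat.le_add_right _ _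
  · exact Nat.le_add_left _ _

theorem hasPolyKernel : HasPolyKernel (Editing {C4, twoK2}) := by
  obtain ⟨f, h1, h2, c, h3⟩ := kernel
  exact ⟨f, h1, h2, Polynomial.C c, fun x => by rw [Polynomial.eval_C]; exact h3 x⟩

end Pool.Agent.V11225.PS
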